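import Mathlib
import Pool.Agent.Run7.h285.R.Stm
import Pool.Agent.H646.Moment

/-! Piece R5 of the project RP of helper285: triples of simultaneous prime values on average. -/

set_option autoImplicit false

namespace Run7.h88.RP

open Finset Filter Topology Polynomial
open Run7.h285.G (Gd)
open Run7.h285.R (c3 t3 hh S_R2 S_R3 S_R5)
open Pool.Agent.H646 (rat)

/-- a product of nonnegative reals is at most the sum of the powers -/
lemma prod_le_sum {ι : Type} [Fintype ι] [Nonempty ι] (x : ι → ℝ) (hx : ∀ t, 0 ≤ x t) :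
    ∏ t, x t ≤ ∑ t, x t ^ Fintype.card ι := by
  obtain ⟨t₀, _, ht₀⟩ := Finset.exists_max_image (univ : Finset ι) x univ_nonempty
  calc ∏ t, x t ≤ ∏ _t : ι, x t₀ := Finset.prod_le_prod (fun t _ => hx t) fun t ht => ht₀ t ht
    _ = x t₀ ^ Fintype.card ι := by rw [Finset.prod_const, Finset.card_univ]
    _ ≤ ∑ t, x t ^ Fintype.card ι :=
      Finset.single_le_sum (f := fun t => x t ^ Fintype.card ι) (fun t _ => pow_nonneg (hx t) _) (mem_univ t₀)

lemma hh_nonneg (y : ℕ) (δ : ℤ) : 0 ≤ hh y δ :=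
  Finset.prod_nonneg fun p _ => inv_nonneg.2 (sq_nonneg _)

lemma rat_nonneg (n : ℕ) : 0 ≤ rat n := by unfold rat; positivity

/-- logarithms are small -/
lemma log_small (c : ℝ) (a : ℕ) (s : ℝ) (hs : 0 < s) : ∀ᶠ X : ℕ in atTop, c * Real.log X ^ a ≤ (X : ℝ) ^ s := by
  have h1 : (fun x : ℝ => c * Real.log x ^ a) =o[atTop] fun x : ℝ => x ^ s := by
    refine Asymptotics.IsLittleO.const_mul_left ?_ c
    have := isLittleO_log_rpow_rpow_atTop (s := s) (a : ℝ) hs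
    simpa [Real.rpow_natCast] using this
  have h2 := h1.bound (one_pos)
  have h3 := tendsto_natCast_atTop_atTop (R := ℝ)
  filter_upwards [h3.eventually h2, eventually_ge_atTop 1] with X hX hX1
  have h4 : (0 : ℝ) ≤ (X : ℝ) ^ s := by positivity
  rw [one_mul, Real.norm_of_nonneg h4] at hX
  exact (le_abs_self _).trans hX

/-- growth of a polynomial -/
lemma poly_bound (g : ℤ[X]) : ∃ S : ℝ, 0 < S ∧ ∀ n N : ℕ, n ≤ N → 1 ≤ N →
    ((g.eval (n : ℤ)).natAbs : ℝ) ≤ S * (N : ℝ) ^ g.natDegree := by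
  refine ⟨∑ i ∈ range (g.natDegree + 1), |(g.coeff i : ℝ)| + 1, by positivity, fun n N hn hN => ?_⟩
  have h1 : ((g.eval (n : ℤ)).natAbs : ℝ) = |((g.eval (n : ℤ) : ℤ) : ℝ)| := by
    rw [← Int.cast_abs, Int.abs_eq_natAbs]; simp
  have hN' : (1 : ℝ) ≤ N := by exact_mod_cast hN
  have hn' : (n : ℝ) ≤ N := by exact_mod_cast hn
  rw [h1, Polynomial.eval_eq_sum_range, Int.cast_sum]
  refine (Finset.abs_sum_le_sum_abs _ _).trans ?_
  rw [add_mul, Finset.sum_mul]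
  refine (Finset.sum_le_sum (g := fun i => |(g.coeff i : ℝ)| * (N : ℝ) ^ g.natDegree) fun i hi => ?_).trans
    (by have : (0 : ℝ) ≤ 1 * (N : ℝ) ^ g.natDegree := by positivity
        linarith)
  rw [Int.cast_mul, abs_mul]
  refine mul_le_mul_of_nonneg_left ?_ (abs_nonneg _)
  push_cast
  rw [abs_of_nonneg (by positivity)]
  calc (n : ℝ) ^ i ≤ (N : ℝ) ^ i := pow_le_pow_left₀ (by positivity) hn' i
    _ ≤ (N : ℝ) ^ g.natDegree := pow_le_pow_right₀ hN' (by have := Finset.mem_range.1 hi; omega)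

/-- a polynomial of positive degree with positive leading coefficient increases from some point on -/
lemma poly_incr (g : ℤ[X]) (hg : Gd g) : ∃ n₀ : ℕ, ∀ n m : ℕ, n₀ ≤ n → n < m → g.eval (n : ℤ) < g.eval (m : ℤ) := by
  set G : ℝ[X] := g.map (Int.castRingHom ℝ) with hG
  have hinj : Function.Injective (Int.castRingHom ℝ) := Int.cast_injective
  have hdeg : G.natDegree = g.natDegree := Polynomial.natDegree_map_eq_of_injective hinj g
  have hlc : G.leadingCoeff = (g.leadingCoeff : ℝ) := by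
    rw [hG, Polynomial.leadingCoeff_map_of_injective hinj]; simp
  have hlc' : 0 < G.leadingCoeff := by rw [hlc]; exact_mod_cast hg.2
  have h2 : 2 ≤ G.natDegree := by rw [hdeg]; exact hg.1
  have hd : G.derivative.natDegree = G.natDegree - 1 := Polynomial.natDegree_derivative G
  have hdl : 0 < G.derivative.leadingCoeff := by
    rw [Polynomial.leadingCoeff, hd, Polynomial.coeff_derivative]
    have h3 : G.natDegree - 1 + 1 = G.natDegree := by omega
    rw [h3]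
    have h4 : G.coeff G.natDegree = G.leadingCoeff := rfl
    rw [h4]
    positivity
  have hdd : 0 < G.derivative.degree := by
    rw [← Polynomial.natDegree_pos_iff_degree_pos, hd]; omega
  have htend := Polynomial.tendsto_atTop_of_leadingCoeff_nonneg G.derivative hdd hdl.le
  obtain ⟨x₀, hx₀⟩ := Filter.eventually_atTop.1 (htend.eventually (eventually_gt_atTop 0))
  refine ⟨⌈x₀⌉₊, fun n m hn hnm => ?_⟩
  have hmono : StrictMonoOn (fun x : ℝ => G.eval x) (Set.Ici x₀) := by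
    refine strictMonoOn_of_deriv_pos (convex_Ici x₀) G.continuous.continuousOn fun x hx => ?_
    rw [interior_Ici] at hx
    rw [Polynomial.deriv]
    exact hx₀ x (le_of_lt hx)
  have hn' : x₀ ≤ (n : ℝ) := (Nat.le_ceil x₀).trans (by exact_mod_cast hn)
  have hnm' : (n : ℝ) < m := by exact_mod_cast hnm
  have h5 := hmono (Set.mem_Ici.2 hn') (Set.mem_Ici.2 (hn'.trans hnm'.le)) hnm'
  have h6 : ∀ t : ℕ, G.eval (t : ℝ) = ((g.eval (t : ℤ) : ℤ) : ℝ) := by
    intro t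
    have := Polynomial.eval_intCast_map (Int.castRingHom ℝ) g (t : ℤ)
    simpa [hG] using this
  simp only [h6] at h5
  exact_mod_cast h5

lemma t3_triv (X : ℕ) (hX : 1 ≤ X) (b₁ b₂ b₃ : ℤ) : (t3 X b₁ b₂ b₃ : ℝ) ≤ 3 * X := by
  have h1 : t3 X b₁ b₂ b₃ ≤ 2 * X + 1 := by
    refine (Finset.card_filter_le _ _).trans ?_
    rw [Int.card_Icc]; omega
  have h2 : (t3 X b₁ b₂ b₃ : ℝ) ≤ 2 * X + 1 := by exact_mod_cast h1
  have h3 : (1 : ℝ) ≤ X := by exact_mod_cast hX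
  linarith

lemma key {k : ℕ} (hk : 1 ≤ k) (x y z : Fin k → ℝ) (hx : ∀ l, 0 ≤ x l) (hy : ∀ l, 0 ≤ y l) (hz : ∀ l, 0 ≤ z l) :
    ∏ l, (x l * y l * z l) ≤ ∑ l, (x l ^ (k * 3) + y l ^ (k * 3) + z l ^ (k * 3)) := by
  haveI : Nonempty (Fin k) := ⟨⟨0, hk⟩⟩
  have h := prod_le_sum (ι := Fin k × Fin 3) (fun t => ![x t.1, y t.1, z t.1] t.2) (by
    rintro ⟨l, t⟩; fin_cases t <;> simp [hx, hy, hz])
  simpa [Fintype.prod_prod_type, Fintype.sum_prod_type, Fin.prod_univ_three, Fin.sum_univ_three] using h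

/-- sums of the moments over the pairs `i < j ≤ H` -/
lemma pair_sums (B : ℕ) : ∃ C > (0 : ℝ), ∀ H : ℕ,
    ∑ j ∈ Icc 1 H, ∑ i ∈ Ico 1 j, (rat i ^ B + rat j ^ B + rat (j - i) ^ B) ≤ C * (H : ℝ) ^ 2 := by
  obtain ⟨C, hC, hm⟩ := Pool.Agent.H646.MomentM.rat_moment B
  refine ⟨3 * C, by positivity, fun H => ?_⟩
  have hn : ∀ n, 0 ≤ rat n ^ B := fun n => pow_nonneg (rat_nonneg n) B
  have h1 : ∀ j ∈ Icc 1 H, ∑ i ∈ Ico 1 j, (rat i ^ B + rat j ^ B + rat (j - i) ^ B) ≤ C * H + H * rat j ^ B + C * H := by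
    intro j hj
    rw [Finset.mem_Icc] at hj
    rw [Finset.sum_add_distrib, Finset.sum_add_distrib]
    have hsub : Ico 1 j ⊆ Icc 1 H := fun t ht => by
      rw [Finset.mem_Ico] at ht; rw [Finset.mem_Icc]; omega
    have h2 : ∑ i ∈ Ico 1 j, rat i ^ B ≤ C * H :=
      (Finset.sum_le_sum_of_subset_of_nonneg hsub fun _ _ _ => hn _).trans (hm H)
    have h3 : ∑ _i ∈ Ico 1 j, rat j ^ B ≤ H * rat j ^ B := by
      rw [Finset.sum_const, nsmul_eq_mul, Nat.card_Ico]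
      refine mul_le_mul_of_nonneg_right ?_ (hn j)
      exact_mod_cast (by omega : j - 1 ≤ H)
    have h4 : ∑ i ∈ Ico 1 j, rat (j - i) ^ B = ∑ i ∈ Ico 1 j, rat i ^ B := by
      refine Finset.sum_nbij' (fun i => j - i) (fun i => j - i) ?_ ?_ ?_ ?_ ?_
      · intro i hi; rw [Finset.mem_Ico] at hi ⊢; omega
      · intro i hi; rw [Finset.mem_Ico] at hi ⊢; omega
      · intro i hi; rw [Finset.mem_Ico] at hi; show j - (j - i) = i; omega
      · intro i hi; rw [Finset.mem_Ico] at hi; show j - (j - i) = i; omega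
      · intro i _; rfl
    rw [h4]
    linarith
  refine (Finset.sum_le_sum h1).trans ?_
  rw [Finset.sum_add_distrib, Finset.sum_add_distrib, Finset.sum_const, nsmul_eq_mul, Nat.card_Icc, ← Finset.mul_sum]
  have h5 := mul_le_mul_of_nonneg_left (hm H) (Nat.cast_nonneg (α := ℝ) H)
  have h6 : ((H + 1 - 1 : ℕ) : ℝ) = H := by simp
  rw [h6]
  nlinarith

/-- **R5** -/
theorem r5 {k : ℕ} (f : Fin k → ℤ[X]) (hk : 1 ≤ k) (hf : ∀ l, Gd (f l)) (h2 : S_R2) (h3 : ∀ l, S_R3 (f l)) :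
    S_R5 f := by
  have l₀ : Fin k := ⟨0, hk⟩
  set D₀ : ℕ := ∑ l, (f l).natDegree with hD₀
  have hD : ∀ l, (f l).natDegree ≤ D₀ := fun l =>
    Finset.single_le_sum (f := fun l => (f l).natDegree) (fun _ _ => Nat.zero_le _) (mem_univ l)
  have hD2 : 2 ≤ D₀ := (hf l₀).1.trans (hD l₀)
  have hD2' : (2 : ℝ) ≤ D₀ := by exact_mod_cast hD2
  set η : ℝ := 1 / (10 * D₀) with hη
  have hη0 : 0 < η := by rw [hη]; positivity
  obtain ⟨K₂, X₂, hK₂, hR2⟩ := h2 η hη0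
  choose K₃ hK₃ hR3 using fun l => h3 l (k * 3)
  obtain ⟨C₁, hC₁, hP⟩ := pair_sums (2 * (k * 3))
  choose n₁ hn₁ using fun l => poly_incr (f l) (hf l)
  choose S hS hSb using fun l => poly_bound (f l)
  set n₀ : ℕ := ∑ l, n₁ l with hn₀
  have hn₀' : ∀ l, n₁ l ≤ n₀ := fun l => Finset.single_le_sum (f := n₁) (fun _ _ => Nat.zero_le _) (mem_univ l)
  have hK3 : 0 ≤ ∑ l, K₃ l := Finset.sum_nonneg fun l _ => (hK₃ l).le
  refine ⟨K₂ ^ k * (∑ l, K₃ l) * C₁ + 1, by positivity, fun C D => ?_⟩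
  have e1 : ∀ᶠ X : ℕ in atTop, 1 ≤ Real.log X :=
    (Real.tendsto_log_atTop.comp tendsto_natCast_atTop_atTop).eventually (eventually_ge_atTop 1)
  have e2 : ∀ᶠ X : ℕ in atTop, ∀ l, 2 * (S l * 2 ^ ((f l).natDegree - 1)) * Real.log X ^ C ≤ (X : ℝ) ^ (1 : ℝ) :=
    Filter.eventually_all.2 fun l => log_small _ _ 1 one_pos
  have e3 : ∀ᶠ X : ℕ in atTop, ∀ l, 2 * (S l * 2 ^ ((f l).natDegree - 1)) * Real.log X ^ (D * (f l).natDegree) ≤
      (X : ℝ) ^ (1 : ℝ) := Filter.eventually_all.2 fun l => log_small _ _ 1 one_pos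
  have e4 : ∀ᶠ X : ℕ in atTop, ((3 : ℝ) ^ k * n₀) ^ ((f l₀).natDegree - 1) *
      Real.log X ^ (3 * k * ((f l₀).natDegree - 1)) ≤ (X : ℝ) ^ (1 / 3 : ℝ) := log_small _ _ _ (by norm_num)
  obtain ⟨X₀, hX₀⟩ := Filter.eventually_atTop.1 (e1.and (e2.and (e3.and (e4.and (eventually_ge_atTop (max X₂ 1))))))
  refine ⟨X₀, fun X hX m₀ M H hH hHD hM1 hM2 => ?_⟩
  obtain ⟨hL, a2, a3, a4, aX⟩ := hX₀ X hX
  have hX2 : X₂ ≤ X := (le_max_left _ _).trans aX
  have hX1 : 1 ≤ X := (le_max_right _ _).trans aX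
  have hX1' : (1 : ℝ) ≤ X := by exact_mod_cast hX1
  set L : ℝ := Real.log X with hLdef
  have hL0 : 0 < L := by linarith
  set y : ℕ := ⌊η * L⌋₊ with hy
  -- the period is short
  have hd1 : 1 ≤ (f l₀).natDegree - 1 := by have := (hf l₀).1; omega
  have hyM : 4 ^ y ≤ M := by
    have h4 : ((4 : ℝ) ^ y) ^ ((f l₀).natDegree - 1) ≤ (M : ℝ) ^ ((f l₀).natDegree - 1) := by
      refine le_trans ?_ (hM1 l₀)
      have h5 : (4 : ℝ) = Real.exp (Real.log 4) := (Real.exp_log (by norm_num)).symm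
      rw [← pow_mul, h5, ← Real.exp_nat_mul, Real.rpow_def_of_pos (by linarith : (0 : ℝ) < X)]
      refine Real.exp_le_exp.2 ?_
      have h6 : Real.log 4 ≤ 3 := by
        have := Real.log_le_sub_one_of_pos (show (0 : ℝ) < 4 by norm_num); linarith
      have h6' : 0 ≤ Real.log 4 := Real.log_nonneg (by norm_num)
      have h7 : (y : ℝ) ≤ η * L := Nat.floor_le (by positivity)
      have h8 : (((f l₀).natDegree - 1 : ℕ) : ℝ) ≤ D₀ := by
        exact_mod_cast (Nat.sub_le _ _).trans (hD l₀)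
      have h9 : (y : ℝ) * (((f l₀).natDegree - 1 : ℕ) : ℝ) ≤ (η * L) * D₀ :=
        mul_le_mul h7 h8 (by positivity) (by positivity)
      have h10 : (η * L) * D₀ = L / 10 := by rw [hη]; field_simp
      push_cast
      rw [h10] at h9
      calc (y : ℝ) * (((f l₀).natDegree - 1 : ℕ) : ℝ) * Real.log 4 ≤ L / 10 * 3 :=
            mul_le_mul h9 h6 h6' (by positivity)
        _ ≤ L * (1 / 3) := by linarith
    have h11 : ((4 : ℝ) ^ y) ≤ M := le_of_pow_le_pow_left₀ (by omega) (by positivity) h4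
    exact_mod_cast h11
  -- few small arguments
  have hsmall : (3 : ℝ) ^ k * n₀ * L ^ (3 * k) ≤ M := by
    refine le_of_pow_le_pow_left₀ (n := (f l₀).natDegree - 1) (by omega) (by positivity) ?_
    rw [mul_pow, ← pow_mul]
    exact a4.trans (hM1 l₀)
  -- the values are small
  have hval : ∀ l, ∀ n : ℕ, n ≤ m₀ + M + H → (((f l).eval (n : ℤ)).natAbs : ℝ) ≤ (X : ℝ) ^ 2 := by
    intro l n hn
    refine (hSb l n (m₀ + M + H) hn (by omega)).trans ?_
    have h4 : (((m₀ + M + H : ℕ) : ℝ)) ^ (f l).natDegree ≤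
        2 ^ ((f l).natDegree - 1) * (((m₀ : ℝ) + M) ^ (f l).natDegree + (H : ℝ) ^ (f l).natDegree) := by
      push_cast
      exact add_pow_le (by positivity) (by positivity) _
    have h5 : (H : ℝ) ^ (f l).natDegree ≤ L ^ (D * (f l).natDegree) := by
      rw [pow_mul]; exact pow_le_pow_left₀ (by positivity) hHD _
    have h6 := a2 l
    have h7 := a3 l
    rw [Real.rpow_one] at h6 h7
    have h8 := hM2 l
    have hc : 0 ≤ S l * 2 ^ ((f l).natDegree - 1) := by have := hS l; positivity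
    calc S l * (((m₀ + M + H : ℕ) : ℝ)) ^ (f l).natDegree
        ≤ S l * (2 ^ ((f l).natDegree - 1) * (((m₀ : ℝ) + M) ^ (f l).natDegree + (H : ℝ) ^ (f l).natDegree)) :=
          mul_le_mul_of_nonneg_left h4 (hS l).le
      _ ≤ S l * 2 ^ ((f l).natDegree - 1) * (X * L ^ C + L ^ (D * (f l).natDegree)) := by
          rw [← mul_assoc]; exact mul_le_mul_of_nonneg_left (add_le_add h8 h5) hc
      _ = (2 * (S l * 2 ^ ((f l).natDegree - 1)) * L ^ C) * X / 2 +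
          (2 * (S l * 2 ^ ((f l).natDegree - 1)) * L ^ (D * (f l).natDegree)) / 2 := by ring
      _ ≤ X * X / 2 + X / 2 := by
          have := mul_le_mul_of_nonneg_right h6 (by positivity : (0 : ℝ) ≤ X)
          linarith
      _ ≤ (X : ℝ) ^ 2 := by nlinarith
  -- the pointwise bound
  set Q : ℝ := K₂ * (X / L ^ 3) with hQ
  have hQ0 : 0 ≤ Q := by rw [hQ]; positivity
  set hx : Fin k → ℕ → ℕ → ℝ := fun l n i => hh y ((f l).eval ((n + i : ℕ) : ℤ) - (f l).eval (n : ℤ)) with hhx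
  have hx0 : ∀ l n i, 0 ≤ hx l n i := fun l n i => hh_nonneg _ _
  have hpt : ∀ m ∈ Ioc m₀ (m₀ + M), ∀ j ∈ Icc 1 H, ∀ i ∈ Ico 1 j, ∏ l, (c3 (f l) X m (m + i) (m + j) : ℝ) ≤
      (if m < n₀ then (3 * (X : ℝ)) ^ k else 0) +
      Q ^ k * ∑ l, (hx l m i ^ (k * 3) + hx l m j ^ (k * 3) + hx l (m + i) (j - i) ^ (k * 3)) := by
    intro m hm j hj i hi
    rw [Finset.mem_Ioc] at hm
    rw [Finset.mem_Icc] at hj
    rw [Finset.mem_Ico] at hi
    have hsum0 : 0 ≤ Q ^ k * ∑ l, (hx l m i ^ (k * 3) + hx l m j ^ (k * 3) + hx l (m + i) (j - i) ^ (k * 3)) := by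
      refine mul_nonneg (pow_nonneg hQ0 k) (Finset.sum_nonneg fun l _ => ?_)
      have h4 := pow_nonneg (hx0 l m i) (k * 3)
      have h5 := pow_nonneg (hx0 l m j) (k * 3)
      have h6 := pow_nonneg (hx0 l (m + i) (j - i)) (k * 3)
      linarith
    split_ifs with hmn
    · refine le_trans ?_ (le_add_of_nonneg_right hsum0)
      calc ∏ l, (c3 (f l) X m (m + i) (m + j) : ℝ) ≤ ∏ _l : Fin k, (3 * (X : ℝ)) :=
            Finset.prod_le_prod (fun l _ => by positivity) fun l _ => t3_triv X hX1 _ _ _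
        _ = (3 * (X : ℝ)) ^ k := by rw [Finset.prod_const, Finset.card_univ, Fintype.card_fin]
    · rw [zero_add]
      calc ∏ l, (c3 (f l) X m (m + i) (m + j) : ℝ)
          ≤ ∏ l, (Q * (hx l m i * hx l m j * hx l (m + i) (j - i))) := by
            refine Finset.prod_le_prod (fun l _ => by positivity) fun l _ => ?_
            have hb1 : (f l).eval (m : ℤ) < (f l).eval ((m + i : ℕ) : ℤ) :=
              hn₁ l m (m + i) ((hn₀' l).trans (by omega)) (by omega)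
            have hb2 : (f l).eval ((m + i : ℕ) : ℤ) < (f l).eval ((m + j : ℕ) : ℤ) :=
              hn₁ l (m + i) (m + j) ((hn₀' l).trans (by omega)) (by omega)
            have h4 := hR2 X hX2 ((f l).eval (m : ℤ)) ((f l).eval ((m + i : ℕ) : ℤ)) ((f l).eval ((m + j : ℕ) : ℤ))
              hb1.ne (hb1.trans hb2).ne hb2.ne (hval l m (by omega)) (hval l (m + i) (by omega)) (hval l (m + j) (by omega))
            have h5 : hx l (m + i) (j - i) = hh y ((f l).eval ((m + j : ℕ) : ℤ) - (f l).eval ((m + i : ℕ) : ℤ)) := by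
              have h6 : m + i + (j - i) = m + j := by omega
              simp only [hhx, h6]
            rw [h5]
            exact h4
        _ = Q ^ k * ∏ l, (hx l m i * hx l m j * hx l (m + i) (j - i)) := by
            rw [Finset.prod_mul_distrib, Finset.prod_const, Finset.card_univ, Fintype.card_fin]
        _ ≤ Q ^ k * ∑ l, (hx l m i ^ (k * 3) + hx l m j ^ (k * 3) + hx l (m + i) (j - i) ^ (k * 3)) :=
            mul_le_mul_of_nonneg_left (key hk _ _ _ (fun l => hx0 l m i) (fun l => hx0 l m j)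
              fun l => hx0 l (m + i) (j - i)) (pow_nonneg hQ0 k)
  -- the first sum
  have hfirst : ∑ m ∈ Ioc m₀ (m₀ + M), ∑ _j ∈ Icc 1 H, ∑ _i ∈ Ico 1 _j, (if m < n₀ then (3 * (X : ℝ)) ^ k else 0) ≤
      n₀ * ((H : ℝ) ^ 2 * (3 * (X : ℝ)) ^ k) := by
    have h4 : ∀ m ∈ Ioc m₀ (m₀ + M), ∑ _j ∈ Icc 1 H, ∑ _i ∈ Ico 1 _j, (if m < n₀ then (3 * (X : ℝ)) ^ k else 0) ≤
        if m < n₀ then (H : ℝ) ^ 2 * (3 * (X : ℝ)) ^ k else 0 := by
      intro m _
      split_ifs with hmn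
      · calc ∑ _j ∈ Icc 1 H, ∑ _i ∈ Ico 1 _j, (3 * (X : ℝ)) ^ k ≤ ∑ _j ∈ Icc 1 H, (H : ℝ) * (3 * (X : ℝ)) ^ k := by
              refine Finset.sum_le_sum fun j hj => ?_
              rw [Finset.mem_Icc] at hj
              rw [Finset.sum_const, nsmul_eq_mul, Nat.card_Ico]
              refine mul_le_mul_of_nonneg_right ?_ (by positivity)
              exact_mod_cast (by omega : j - 1 ≤ H)
          _ = (H : ℝ) ^ 2 * (3 * (X : ℝ)) ^ k := by
              rw [Finset.sum_const, nsmul_eq_mul, Nat.card_Icc]; simp; ring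
      · simp
    refine (Finset.sum_le_sum h4).trans ?_
    rw [← Finset.sum_filter, Finset.sum_const, nsmul_eq_mul]
    refine mul_le_mul_of_nonneg_right ?_ (by positivity)
    have h5 : #((Ioc m₀ (m₀ + M)).filter fun m => m < n₀) ≤ n₀ := by
      calc #((Ioc m₀ (m₀ + M)).filter fun m => m < n₀) ≤ #(range n₀) :=
            Finset.card_le_card fun t ht => Finset.mem_range.2 (Finset.mem_filter.1 ht).2
        _ = n₀ := Finset.card_range _
    exact_mod_cast h5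
  -- the means of the local factors
  have hmean : ∀ l, ∀ j ∈ Icc 1 H, ∀ i ∈ Ico 1 j,
      ∑ m ∈ Ioc m₀ (m₀ + M), (hx l m i ^ (k * 3) + hx l m j ^ (k * 3) + hx l (m + i) (j - i) ^ (k * 3)) ≤
      K₃ l * M * (rat i ^ (2 * (k * 3)) + rat j ^ (2 * (k * 3)) + rat (j - i) ^ (2 * (k * 3))) := by
    intro l j hj i hi
    rw [Finset.mem_Icc] at hj
    rw [Finset.mem_Ico] at hi
    rw [Finset.sum_add_distrib, Finset.sum_add_distrib]
    have h4 := hR3 l y m₀ M i hi.1 hyM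
    have h5 := hR3 l y m₀ M j hj.1 hyM
    have h6 := hR3 l y (m₀ + i) M (j - i) (by omega) hyM
    have h7 : ∑ m ∈ Ioc m₀ (m₀ + M), hx l (m + i) (j - i) ^ (k * 3) =
        ∑ n ∈ Ioc (m₀ + i) (m₀ + i + M), hx l n (j - i) ^ (k * 3) := by
      refine Finset.sum_nbij' (fun m => m + i) (fun n => n - i) ?_ ?_ ?_ ?_ ?_
      · intro m hm; rw [Finset.mem_Ioc] at hm ⊢; omega
      · intro m hm; rw [Finset.mem_Ioc] at hm ⊢; omega
      · intro m hm; rw [Finset.mem_Ioc] at hm; show m + i - i = m; omega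
      · intro m hm; rw [Finset.mem_Ioc] at hm; show m - i + i = m; omega
      · intro m _; rfl
    rw [h7]
    simp only [hhx]
    linarith
  -- the second sum
  have hsecond : ∑ m ∈ Ioc m₀ (m₀ + M), ∑ j ∈ Icc 1 H, ∑ i ∈ Ico 1 j,
      Q ^ k * ∑ l, (hx l m i ^ (k * 3) + hx l m j ^ (k * 3) + hx l (m + i) (j - i) ^ (k * 3)) ≤
      Q ^ k * ((∑ l, K₃ l) * M * (C₁ * (H : ℝ) ^ 2)) := by
    have h4 : ∑ m ∈ Ioc m₀ (m₀ + M), ∑ j ∈ Icc 1 H, ∑ i ∈ Ico 1 j,
        Q ^ k * ∑ l, (hx l m i ^ (k * 3) + hx l m j ^ (k * 3) + hx l (m + i) (j - i) ^ (k * 3)) =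
        Q ^ k * ∑ j ∈ Icc 1 H, ∑ i ∈ Ico 1 j, ∑ l, ∑ m ∈ Ioc m₀ (m₀ + M),
          (hx l m i ^ (k * 3) + hx l m j ^ (k * 3) + hx l (m + i) (j - i) ^ (k * 3)) := by
      rw [Finset.sum_comm, Finset.mul_sum]
      refine Finset.sum_congr rfl fun j _ => ?_
      rw [Finset.sum_comm, Finset.mul_sum]
      refine Finset.sum_congr rfl fun i _ => ?_
      rw [← Finset.mul_sum, Finset.sum_comm]
    rw [h4]
    refine mul_le_mul_of_nonneg_left ?_ (pow_nonneg hQ0 k)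
    calc ∑ j ∈ Icc 1 H, ∑ i ∈ Ico 1 j, ∑ l, ∑ m ∈ Ioc m₀ (m₀ + M),
          (hx l m i ^ (k * 3) + hx l m j ^ (k * 3) + hx l (m + i) (j - i) ^ (k * 3))
        ≤ ∑ j ∈ Icc 1 H, ∑ i ∈ Ico 1 j, ∑ l,
          K₃ l * M * (rat i ^ (2 * (k * 3)) + rat j ^ (2 * (k * 3)) + rat (j - i) ^ (2 * (k * 3))) :=
          Finset.sum_le_sum fun j hj => Finset.sum_le_sum fun i hi => Finset.sum_le_sum fun l _ => hmean l j hj i hi
      _ = (∑ l, K₃ l) * M * ∑ j ∈ Icc 1 H, ∑ i ∈ Ico 1 j,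
          (rat i ^ (2 * (k * 3)) + rat j ^ (2 * (k * 3)) + rat (j - i) ^ (2 * (k * 3))) := by
          rw [Finset.mul_sum]
          refine Finset.sum_congr rfl fun j _ => ?_
          rw [Finset.mul_sum]
          refine Finset.sum_congr rfl fun i _ => ?_
          rw [← Finset.sum_mul, ← Finset.sum_mul]
      _ ≤ (∑ l, K₃ l) * M * (C₁ * (H : ℝ) ^ 2) :=
          mul_le_mul_of_nonneg_left (hP H) (by positivity)
  -- assembly
  have htot : ∑ m ∈ Ioc m₀ (m₀ + M), ∑ j ∈ Icc 1 H, ∑ i ∈ Ico 1 j, ∏ l, (c3 (f l) X m (m + i) (m + j) : ℝ) ≤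
      n₀ * ((H : ℝ) ^ 2 * (3 * (X : ℝ)) ^ k) + Q ^ k * ((∑ l, K₃ l) * M * (C₁ * (H : ℝ) ^ 2)) := by
    refine le_trans ?_ (add_le_add hfirst hsecond)
    rw [← Finset.sum_add_distrib]
    refine Finset.sum_le_sum fun m hm => ?_
    rw [← Finset.sum_add_distrib]
    refine Finset.sum_le_sum fun j hj => ?_
    rw [← Finset.sum_add_distrib]
    exact Finset.sum_le_sum fun i hi => hpt m hm j hj i hi
  refine htot.trans ?_
  have hLk : (0 : ℝ) < (L ^ k) ^ 3 := by positivity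
  have hA1 : (n₀ : ℝ) * ((H : ℝ) ^ 2 * (3 * (X : ℝ)) ^ k) ≤ (X : ℝ) ^ k * M * (H : ℝ) ^ 2 / (L ^ k) ^ 3 := by
    rw [le_div_iff₀ hLk]
    have h4 : (L ^ k) ^ 3 = L ^ (3 * k) := by rw [← pow_mul]; congr 1; ring
    rw [h4, mul_pow]
    calc (n₀ : ℝ) * ((H : ℝ) ^ 2 * ((3 : ℝ) ^ k * (X : ℝ) ^ k)) * L ^ (3 * k)
        = ((3 : ℝ) ^ k * n₀ * L ^ (3 * k)) * ((X : ℝ) ^ k * (H : ℝ) ^ 2) := by ring
      _ ≤ M * ((X : ℝ) ^ k * (H : ℝ) ^ 2) := mul_le_mul_of_nonneg_right hsmall (by positivity)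
      _ = (X : ℝ) ^ k * M * (H : ℝ) ^ 2 := by ring
  have hA2 : Q ^ k * ((∑ l, K₃ l) * M * (C₁ * (H : ℝ) ^ 2)) =
      K₂ ^ k * (∑ l, K₃ l) * C₁ * ((X : ℝ) ^ k * M * (H : ℝ) ^ 2 / (L ^ k) ^ 3) := by
    have h4 : (L ^ k) ^ 3 = (L ^ 3) ^ k := by rw [← pow_mul, ← pow_mul, mul_comm]
    rw [hQ, mul_pow, div_pow, h4]
    ring
  rw [hA2, add_mul, one_mul]
  linarith

end Run7.h88.RP
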